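import Pool.Agent.H79.DO.Stmts

/-!
# Module COMB of project DO: small integral combinations
-/

set_option autoImplicit false

namespace Pool.Agent.H69.DO

open Matrix Finset

/-- Siegel's lemma for one more column than rows, with explicit coordinates. -/
theorem siegel_one {ι : Type} [Fintype ι] (k : ℕ) (hk : k + 1 = Fintype.card ι)
    (A : Fin k → ι → ℕ) (B : ℕ) (hB : 1 ≤ B) (hA : ∀ j i, A j i ≤ B) :
    ∃ t : ι → ℤ, t ≠ 0 ∧ (∀ j, ∑ i, (A j i : ℤ) * t i = 0) ∧
      ∀ i, |t i| ≤ ((Fintype.card ι * B : ℕ) : ℤ) ^ k := by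
  classical
  rcases Nat.eq_zero_or_pos k with h0 | h0
  · subst h0
    have : Nonempty ι := Fintype.card_pos_iff.mp (by omega)
    refine ⟨fun _ => 1, ?_, fun j => j.elim0, fun i => by simp⟩
    intro h
    have := congrFun h (Classical.arbitrary ι)
    simp at this
  · let _ : SeminormedAddCommGroup (Matrix (Fin k) ι ℤ) := Matrix.seminormedAddCommGroup
    set M : Matrix (Fin k) ι ℤ := fun j i => (A j i : ℤ) with hM
    obtain ⟨t, ht0, htM, htn⟩ := Int.Matrix.exists_ne_zero_int_vec_norm_le M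
      (by simp; omega) (by simpa using h0)
    refine ⟨t, ht0, ?_, ?_⟩
    · intro j
      have := congrFun htM j
      simpa [Matrix.mulVec, dotProduct, hM] using this
    · intro i
      have hMn : ‖M‖ ≤ (B : ℝ) := by
        rw [Matrix.norm_le_iff (by positivity)]
        intro j i
        simp only [hM, Int.norm_natCast]
        exact_mod_cast hA j i
      have hmax : max 1 ‖M‖ ≤ (B : ℝ) := max_le (by exact_mod_cast hB) hMn
      have hexp : ((Fintype.card (Fin k) : ℝ) / ((Fintype.card ι : ℝ) - Fintype.card (Fin k))) = k := by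
        rw [← hk]; simp
      rw [hexp] at htn
      have h1 : |(t i : ℝ)| ≤ ((Fintype.card ι : ℝ) * B) ^ k := by
        calc |(t i : ℝ)| = ‖t i‖ := by rw [Int.norm_eq_abs]
          _ ≤ ‖t‖ := norm_le_pi_norm t i
          _ ≤ ((Fintype.card ι : ℝ) * max 1 ‖M‖) ^ (k : ℝ) := htn
          _ = ((Fintype.card ι : ℝ) * max 1 ‖M‖) ^ k := Real.rpow_natCast _ _
          _ ≤ ((Fintype.card ι : ℝ) * B) ^ k := by gcongr
      exact_mod_cast h1

/-- Combinations with a maximal set of zeros generate the kernel of the corresponding rows. -/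
theorem exists_extremal {ι S : Type} [Fintype ι] [Fintype S] (X : ι → S → ℝ)
    (hX : LinearIndependent ℝ X) (a : ι → ℝ) (ha : ∀ s, 0 ≤ ∑ i, a i * X i s) (s₀ : S)
    (ha0 : 0 < ∑ i, a i * X i s₀) :
    ∃ b : ι → ℝ, (∀ s, 0 ≤ ∑ i, b i * X i s) ∧ 0 < ∑ i, b i * X i s₀ ∧
      (∀ s, ∑ i, a i * X i s = 0 → ∑ i, b i * X i s = 0) ∧
      ∀ u : ι → ℝ, (∀ s, ∑ i, b i * X i s = 0 → ∑ i, u i * X i s = 0) → ∃ l : ℝ, u = l • b := by
  classical
  -- zero sets
  let Z : (ι → ℝ) → Finset S := fun b => Finset.univ.filter fun s => ∑ i, b i * X i s = 0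
  let K : Set (ι → ℝ) := {b | (∀ s, 0 ≤ ∑ i, b i * X i s) ∧ 0 < ∑ i, b i * X i s₀ ∧
    ∀ s, ∑ i, a i * X i s = 0 → ∑ i, b i * X i s = 0}
  have haK : a ∈ K := ⟨ha, ha0, fun s h => h⟩
  let N : Set ℕ := {n | ∃ b ∈ K, (Z b).card = n}
  have hNne : N.Nonempty := ⟨_, a, haK, rfl⟩
  have hNbdd : BddAbove N := ⟨Fintype.card S, by
    rintro n ⟨b, -, rfl⟩
    exact Finset.card_le_univ _⟩
  obtain ⟨b, hbK, hbc⟩ := Nat.sSup_mem hNne hNbdd
  have hmax : ∀ c ∈ K, (Z c).card ≤ (Z b).card := by
    intro c hc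
    rw [hbc]
    exact le_csSup hNbdd ⟨c, hc, rfl⟩
  refine ⟨b, hbK.1, hbK.2.1, hbK.2.2, ?_⟩
  -- key step
  have key : ∀ w : ι → ℝ, (∀ s, ∑ i, b i * X i s = 0 → ∑ i, w i * X i s = 0) →
      ∑ i, w i * X i s₀ = 0 → ∀ s, ∑ i, w i * X i s ≤ 0 := by
    intro w hw hw0
    by_contra hcon
    push Not at hcon
    obtain ⟨s₁, hs₁⟩ := hcon
    let P : Finset S := Finset.univ.filter fun s => 0 < ∑ i, w i * X i s
    have hP : P.Nonempty := ⟨s₁, by simp [P, hs₁]⟩
    obtain ⟨s₂, hs₂, hmin⟩ := P.exists_min_image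
      (fun s => (∑ i, b i * X i s) / ∑ i, w i * X i s) hP
    have hs₂' : 0 < ∑ i, w i * X i s₂ := by simpa [P] using hs₂
    set τ : ℝ := (∑ i, b i * X i s₂) / ∑ i, w i * X i s₂ with hτ
    have hb2 : 0 < ∑ i, b i * X i s₂ := by
      rcases (hbK.1 s₂).lt_or_eq with h | h
      · exact h
      · have := hw s₂ h.symm
        linarith
    have hτ0 : 0 < τ := div_pos hb2 hs₂'
    have hsum : ∀ s, ∑ i, (b i - τ * w i) * X i s = ∑ i, b i * X i s - τ * ∑ i, w i * X i s := by
      intro s
      rw [Finset.mul_sum, ← Finset.sum_sub_distrib]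
      exact Finset.sum_congr rfl fun i _ => by ring
    have hcK : (fun i => b i - τ * w i) ∈ K := by
      refine ⟨fun s => ?_, ?_, fun s hs => ?_⟩
      · rw [hsum]
        by_cases h : 0 < ∑ i, w i * X i s
        · have h1 := hmin s (by simp [P, h])
          have h2 : τ * ∑ i, w i * X i s ≤ ∑ i, b i * X i s := by
            rwa [← le_div_iff₀ h]
          linarith
        · push Not at h
          have := hbK.1 s
          nlinarith
      · rw [hsum, hw0]
        simpa using hbK.2.1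
      · rw [hsum, hbK.2.2 s hs, hw s (hbK.2.2 s hs)]
        simp
    have hlt : (Z b).card < (Z fun i => b i - τ * w i).card := by
      apply Finset.card_lt_card
      rw [Finset.ssubset_iff_of_subset]
      · refine ⟨s₂, ?_, ?_⟩
        · simp only [Z, Finset.mem_filter, Finset.mem_univ, true_and]
          rw [hsum, hτ, div_mul_cancel₀ _ hs₂'.ne']
          ring
        · simp only [Z, Finset.mem_filter, Finset.mem_univ, true_and]
          exact hb2.ne'
      · intro s hs
        simp only [Z, Finset.mem_filter, Finset.mem_univ, true_and] at hs ⊢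
        rw [hsum, hs, hw s hs]
        simp
    exact absurd (hmax _ hcK) (not_le.mpr hlt)
  intro u hu
  set l : ℝ := (∑ i, u i * X i s₀) / ∑ i, b i * X i s₀ with hl
  refine ⟨l, ?_⟩
  have hsum : ∀ (r : ℝ) s, ∑ i, r * (u i - l * b i) * X i s =
      r * (∑ i, u i * X i s - l * ∑ i, b i * X i s) := by
    intro r s
    rw [Finset.mul_sum, ← Finset.sum_sub_distrib, Finset.mul_sum]
    exact Finset.sum_congr rfl fun i _ => by ring
  have hk : ∀ r : ℝ, ∀ s, r * (∑ i, u i * X i s - l * ∑ i, b i * X i s) ≤ 0 := by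
    intro r s
    rw [← hsum]
    apply key (fun i => r * (u i - l * b i))
    · intro s hs
      rw [hsum, hs, hu s hs]
      simp
    · rw [hsum, hl, div_mul_cancel₀ _ hbK.2.1.ne']
      ring
  have hz : ∀ s, ∑ i, (u i - l * b i) * X i s = 0 := by
    intro s
    have h1 := hk 1 s
    have h2 := hk (-1) s
    have h3 := hsum 1 s
    simp only [one_mul] at h1 h3
    rw [h3]
    linarith
  have hli := Fintype.linearIndependent_iff.mp hX (fun i => u i - l * b i) (by
    funext s
    simpa [Finset.sum_apply] using hz s)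
  funext i
  have := hli i
  simp only [Pi.smul_apply, smul_eq_mul]
  linarith

theorem comb_core (ι S : Type) [Fintype ι] [Fintype S] (X : ι → S → ℕ) (B : ℕ) (hB : 1 ≤ B)
    (hXB : ∀ i s, X i s ≤ B) (hX : LinearIndependent ℝ (fun i s => (X i s : ℝ)))
    (v : S → ℝ) (hv : v ∈ Submodule.span ℝ (Set.range fun i s => (X i s : ℝ)))
    (hv0 : ∀ s, 0 ≤ v s) (s₀ : S) (hs₀ : 0 < v s₀) :
    ∃ c : ι → ℤ, (∀ i, |c i| ≤ (Fintype.card S * B : ℤ) ^ Fintype.card S) ∧
      (∀ s, 0 ≤ ∑ i, c i * X i s) ∧ 0 < ∑ i, c i * X i s₀ ∧ ∀ s, v s = 0 → ∑ i, c i * X i s = 0 := by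
  classical
  rw [Submodule.mem_span_range_iff_exists_fun] at hv
  obtain ⟨a, ha⟩ := hv
  have hva : ∀ s, v s = ∑ i, a i * (X i s : ℝ) := by
    intro s
    rw [← ha]
    simp [Finset.sum_apply]
  obtain ⟨b, hb1, hb2, hb3, hb4⟩ := exists_extremal (fun i s => (X i s : ℝ)) hX a
    (fun s => by rw [← hva]; exact hv0 s) s₀ (by rw [← hva]; exact hs₀)
  -- the rows of zeros
  let Z : Type := {s : S // ∑ i, b i * (X i s : ℝ) = 0}
  let M : Matrix Z ι ℝ := fun z i => (X i z.1 : ℝ)
  have hMapp : ∀ (u : ι → ℝ) (z : Z), M.mulVecLin u z = ∑ i, u i * (X i z.1 : ℝ) := by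
    intro u z
    change ∑ i, M z i * u i = _
    exact Finset.sum_congr rfl fun i _ => mul_comm _ _
  have hMv : ∀ u : ι → ℝ, M.mulVecLin u = 0 ↔ ∀ s, ∑ i, b i * (X i s : ℝ) = 0 →
      ∑ i, u i * (X i s : ℝ) = 0 := by
    intro u
    constructor
    · intro h s hs
      rw [← hMapp u ⟨s, hs⟩, h]
      rfl
    · intro h
      funext z
      rw [hMapp u z]
      exact h z.1 z.2
  have hbne : b ≠ 0 := by
    rintro rfl
    simp at hb2
  have hker : LinearMap.ker M.mulVecLin = Submodule.span ℝ {b} := by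
    ext u
    rw [LinearMap.mem_ker, hMv, Submodule.mem_span_singleton]
    constructor
    · intro h
      obtain ⟨l, hl⟩ := hb4 u h
      exact ⟨l, hl.symm⟩
    · rintro ⟨l, rfl⟩ s hs
      have : ∑ i, (l • b) i * (X i s : ℝ) = l * ∑ i, b i * (X i s : ℝ) := by
        rw [Finset.mul_sum]
        exact Finset.sum_congr rfl fun i _ => by simp [mul_assoc]
      rw [this, hs, mul_zero]
  have hrank : Module.finrank ℝ (Submodule.span ℝ (Set.range M.row)) + 1 = Fintype.card ι := by
    rw [← Matrix.rank_eq_finrank_span_row, Matrix.rank]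
    have h1 := LinearMap.finrank_range_add_finrank_ker M.mulVecLin
    rw [hker, finrank_span_singleton hbne] at h1
    simpa using h1
  obtain ⟨f, hf1, hf2, -⟩ := Submodule.exists_fun_fin_finrank_span_eq ℝ (Set.range M.row)
  choose g hg using hf1
  obtain ⟨t, ht0, ht1, ht2⟩ := siegel_one _ hrank (fun j i => X i (g j).1) B hB
    (fun j i => hXB _ _)
  -- `t` is in the real kernel
  have htk : ∀ s, ∑ i, b i * (X i s : ℝ) = 0 → ∑ i, (t i : ℝ) * (X i s : ℝ) = 0 := by
    intro s hs
    have hmem : M.row ⟨s, hs⟩ ∈ Submodule.span ℝ (Set.range f) := by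
      rw [hf2]
      exact Submodule.subset_span ⟨_, rfl⟩
    have hall : ∀ x ∈ Submodule.span ℝ (Set.range f), ∑ i, (t i : ℝ) * x i = 0 := by
      intro x hx
      induction hx using Submodule.span_induction with
      | mem x hx =>
        obtain ⟨j, rfl⟩ := hx
        have h := ht1 j
        rw [← hg j]
        have h' : (∑ i, (X i (g j).1 : ℝ) * (t i : ℝ)) = 0 := by exact_mod_cast h
        rw [← h']
        exact Finset.sum_congr rfl fun i _ => by simp [M, Matrix.row, mul_comm]
      | zero => simp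
      | add x y _ _ hx hy =>
        simp only [Pi.add_apply, mul_add, Finset.sum_add_distrib, hx, hy, add_zero]
      | smul r x _ hx =>
        have : ∑ i, (t i : ℝ) * (r • x) i = r * ∑ i, (t i : ℝ) * x i := by
          rw [Finset.mul_sum]
          exact Finset.sum_congr rfl fun i _ => by simp; ring
        rw [this, hx, mul_zero]
    simpa [M, Matrix.row] using hall _ hmem
  obtain ⟨l, hl⟩ := hb4 (fun i => (t i : ℝ)) htk
  have hl0 : l ≠ 0 := by
    rintro rfl
    apply ht0
    funext i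
    have := congrFun hl i
    simpa using this
  have hcard : Fintype.card ι ≤ Fintype.card S := by
    have := hX.fintype_card_le_finrank
    simpa using this
  have hcardpos : 1 ≤ Fintype.card ι := by omega
  have hbound : ∀ i, |t i| ≤ (Fintype.card S * B : ℤ) ^ Fintype.card S := by
    intro i
    have hn : (Fintype.card ι * B) ^ (Module.finrank ℝ (Submodule.span ℝ (Set.range M.row))) ≤
        (Fintype.card S * B) ^ Fintype.card S := by
      calc _ ≤ (Fintype.card S * B) ^ (Module.finrank ℝ (Submodule.span ℝ (Set.range M.row))) := by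
            gcongr
        _ ≤ _ := Nat.pow_le_pow_right (Nat.mul_pos (by omega) (by omega)) (by omega)
    refine (ht2 i).trans ?_
    exact_mod_cast hn
  have hsumt : ∀ s, ∑ i, (t i : ℝ) * (X i s : ℝ) = l * ∑ i, b i * (X i s : ℝ) := by
    intro s
    rw [Finset.mul_sum]
    refine Finset.sum_congr rfl fun i _ => ?_
    have := congrFun hl i
    simp only [Pi.smul_apply, smul_eq_mul] at this
    rw [this]
    ring
  rcases lt_or_gt_of_ne hl0 with hneg | hpos
  · refine ⟨fun i => - t i, fun i => by rw [abs_neg]; exact hbound i, fun s => ?_, ?_, fun s hs => ?_⟩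
    · have h1 : (0 : ℝ) ≤ ∑ i, (-(t i : ℝ)) * (X i s : ℝ) := by
        simp only [neg_mul, Finset.sum_neg_distrib]
        rw [hsumt]
        have := hb1 s
        nlinarith
      exact_mod_cast h1
    · have h1 : (0 : ℝ) < ∑ i, (-(t i : ℝ)) * (X i s₀ : ℝ) := by
        simp only [neg_mul, Finset.sum_neg_distrib]
        rw [hsumt]
        nlinarith
      exact_mod_cast h1
    · have h1 : ∑ i, (-(t i : ℝ)) * (X i s : ℝ) = 0 := by
        simp only [neg_mul, Finset.sum_neg_distrib]
        rw [hsumt, hb3 s (by rw [← hva]; exact hs)]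
        simp
      exact_mod_cast h1
  · refine ⟨t, hbound, fun s => ?_, ?_, fun s hs => ?_⟩
    · have h1 : (0 : ℝ) ≤ ∑ i, (t i : ℝ) * (X i s : ℝ) := by
        rw [hsumt]
        exact mul_nonneg hpos.le (hb1 s)
      exact_mod_cast h1
    · have h1 : (0 : ℝ) < ∑ i, (t i : ℝ) * (X i s₀ : ℝ) := by
        rw [hsumt]
        exact mul_pos hpos hb2
      exact_mod_cast h1
    · have h1 : ∑ i, (t i : ℝ) * (X i s : ℝ) = 0 := by
        rw [hsumt, hb3 s (by rw [← hva]; exact hs)]
        simp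
      exact_mod_cast h1

/-- Module COMB. -/
theorem comb : Pool.Agent.H79.DO.COMB := by
  intro ι S _ _ X B hB hXB hX v hv hv0 s₀ hs₀
  exact comb_core ι S X B hB hXB hX v hv hv0 s₀ hs₀

end Pool.Agent.H69.DO
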